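import Pool.Agent.X173.Heis

/-!
# The set of elements with double centralizer of order at most 4 need not be σ-discrete

In the Heisenberg group `W × W* × F₂` (`W = F₂^(ℕ)`, `W* = F₂^ℕ`) every element has a double
centralizer with at most `4` elements, so `S_{≤ 4}` is the whole group, which is not σ-discrete in
its semi-Zariski topology.
-/

set_option autoImplicit false

namespace Pool.Agent.Results.MP_b73301_gt.NotSigmaDiscrete

open Pool.Agent.X173.Heis

/-- There is a group (hence a semigroup) `G` with finite double centralizers such that the set
`G_{≤ 4}` of all `f` with `|Cent (Cent f)| ≤ 4` is not the union of countably many subsets that are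
discrete in the topology induced by the semi-Zariski topology. -/
theorem result : ∃ (G : Type) (_ : Group G), FiniteDoubleCentralizers G ∧
    ¬ SigmaDiscreteOn (semiZariski G)
      {f : G | (Set.centralizer (Set.centralizer {f})).ncard ≤ 4} := by
  refine ⟨Heis, inferInstance, fdc, ?_⟩
  have h : {f : Heis | (Set.centralizer (Set.centralizer {f})).ncard ≤ 4} = Set.univ :=
    Set.eq_univ_of_forall cc_single
  rw [h]
  exact not_sigmaDiscrete

end Pool.Agent.Results.MP_b73301_gt.NotSigmaDiscrete
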